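import Pool.Agent.R807.ZK2
import Pool.Agent.TH38.ZT.Trace

/-!
Zero in the spectrum for finite aspherical complexes whose fundamental group `G` is an extension of a
group `G/N` by an amenable group `N`.

`X : FinRes G` is the cellular chain complex of the universal cover of a finite aspherical complex
`M` with fundamental group `G` (`Pool.Agent.H919R4.ZS.Defs`), `X.len` is the dimension of `M` and
`X.homology (toRed G) i` is `H_i(M; C*_r(G))`.  Amenability is the Foelner condition
(`Pool.Agent.H496R3.ZS.IsAmenable`), `euler` (`Pool.Agent.TH38.ZT.euler`) is the Euler characteristic.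

The result says that the conclusion of the zero-in-the-spectrum conjecture passes from `G/N` to `G`,
in the same or a smaller degree, if the extension splits, or if the degree is at most one, or if the
rational homology of `N` vanishes in the degrees between zero and the given one.  Nothing is assumed
about the action of `G/N` on the homology of `N`, and `N` need not be finitely generated.
-/

set_option autoImplicit false

namespace Pool.Agent.Results.MP_9f173d_gt.AmenableKernels

open Pool.Agent.H919R4.ZS (FinRes RedC toRed)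
open Pool.Agent.H496R3.ZS (IsAmenable)
open Pool.Agent.TH38.ZT (euler)

variable {G : Type} [Group G]

/-- The ring homomorphism `ℤ[G] → C*_r(G/N)`.  So `X.homology (toQuot N) i` is the homology
`H_i(M; C*_r(G/N))`. -/
noncomputable def toQuot (N : Subgroup G) [N.Normal] : MonoidAlgebra ℤ G →+* RedC (G ⧸ N) :=
  (toRed (G ⧸ N)).comp (MonoidAlgebra.mapDomainRingHom ℤ (QuotientGroup.mk' N))

/-- The ring homomorphism `ℤ[G] → ℚ[G/N]`.  So `X.homology (toRat N) i`, the homology of
`ℚ[G/N] ⊗_{ℤ[G]} X`, is `H_i(N; ℚ)`. -/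
noncomputable def toRat (N : Subgroup G) [N.Normal] :
    MonoidAlgebra ℤ G →+* MonoidAlgebra ℚ (G ⧸ N) :=
  (MonoidAlgebra.mapRingHom (G ⧸ N) (Int.castRingHom ℚ)).comp
    (MonoidAlgebra.mapDomainRingHom ℤ (QuotientGroup.mk' N))

/-- The extension `1 → N → G → G/N → 1` splits: `G` is a semidirect product of `N` and `G/N`. -/
def Splits (N : Subgroup G) [N.Normal] : Prop :=
  ∃ s : G ⧸ N →* G, ∀ q, (QuotientGroup.mk (s q) : G ⧸ N) = q

/-- Let `N` be an amenable normal subgroup of `G`, and let `X` be a finite free resolution of `ℤ`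
over `ℤ[G]` (the cellular chain complex of the universal cover of `M`).

(1) If `H_i(M; C*_r(G/N)) ≠ 0`, then `H_j(M; C*_r(G)) ≠ 0` for some `j ≤ i`.

In (2)-(4) let `Y` be a finite free resolution of `ℤ` over `ℤ[G/N]`.

(2) If `H_i(G/N; C*_r(G/N)) ≠ 0`, and if the extension splits, or if `H_q(N; ℚ) = 0` for all
`1 ≤ q < i` (no condition for `i ≤ 1`), then `H_j(M; C*_r(G)) ≠ 0` for some `j ≤ i`.

(3) Suppose that the extension splits, or that `H_q(N; ℚ) = 0` for all `1 ≤ q < max(2, dim Y)`.  If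
`Y` has dimension at most two, or if `H^k(G/N; ℤ[G/N]) ≠ 0` for some `k ≤ 2`, or if the Euler
characteristic of `Y` is not zero, then `H_j(M; C*_r(G)) ≠ 0` for some `j ≤ max(2, dim Y)`.

(4) If `Y` has dimension at most one (so `G` is amenable-by-free), then `H_j(M; C*_r(G)) ≠ 0` for
some `j ≤ 1`. -/
theorem result (N : Subgroup G) [N.Normal] (hN : IsAmenable N) (X : FinRes G) :
    (∀ i : ℕ, Nontrivial (X.homology (toQuot N) i) →
      ∃ j ≤ i, Nontrivial (X.homology (toRed G) j)) ∧
    (∀ (Y : FinRes (G ⧸ N)) (i : ℕ), Nontrivial (Y.homology (toRed (G ⧸ N)) i) →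
      (Splits N ∨ ∀ q, 1 ≤ q → q < i → Subsingleton (X.homology (toRat N) q)) →
      ∃ j ≤ i, Nontrivial (X.homology (toRed G) j)) ∧
    (∀ Y : FinRes (G ⧸ N),
      (Splits N ∨ ∀ q, 1 ≤ q → q < max 2 Y.len → Subsingleton (X.homology (toRat N) q)) →
      (Y.len ≤ 2 ∨ (∃ k ≤ 2, Nontrivial (Y.cohomology k)) ∨ euler Y ≠ 0) →
      ∃ j ≤ max 2 Y.len, Nontrivial (X.homology (toRed G) j)) ∧
    (∀ Y : FinRes (G ⧸ N), Y.len ≤ 1 → ∃ j ≤ 1, Nontrivial (X.homology (toRed G) j)) := by
  have h2 : ∀ (Y : FinRes (G ⧸ N)) (i : ℕ), Nontrivial (Y.homology (toRed (G ⧸ N)) i) →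
      (Splits N ∨ ∀ q, 1 ≤ q → q < i → Subsingleton (X.homology (toRat N) q)) →
      ∃ j ≤ i, Nontrivial (X.homology (toRed G) j) :=
    fun Y i h hs => Pool.Agent.R807.ZK.extension N hN X Y i h hs
  refine ⟨fun i h => Pool.Agent.R807.ZK.principle N hN X i h, h2, ?_, ?_⟩
  · intro Y hs hY
    obtain ⟨i, hi, hi'⟩ : ∃ i ≤ max 2 Y.len, Nontrivial (Y.homology (toRed (G ⧸ N)) i) := by
      rcases hY with h | h | h
      · obtain ⟨i, hi, hi'⟩ := Pool.Agent.H919R4.ZS.main Y (Or.inl h)
        exact ⟨i, hi.trans (le_max_left _ _), hi'⟩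
      · obtain ⟨i, hi, hi'⟩ := Pool.Agent.H919R4.ZS.main Y (Or.inr h)
        exact ⟨i, hi.trans (le_max_left _ _), hi'⟩
      · obtain ⟨i, hi, hi'⟩ := Pool.Agent.TH38.ZT.exists_of_euler Y h
        exact ⟨i, hi.trans (le_max_right _ _), hi'⟩
    obtain ⟨j, hj, hj'⟩ := h2 Y i hi' (hs.imp_right fun h q h1 h3 => h q h1 (h3.trans_le hi))
    exact ⟨j, hj.trans hi, hj'⟩
  · intro Y hlen
    obtain ⟨i, hi, hi'⟩ := Pool.Agent.H919R4.ZS.main Y (Or.inl (by omega))
    have hi1 : i ≤ 1 := by
      by_contra hcon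
      have hi2 : i = 2 := by omega
      subst hi2
      have h0 : IsEmpty (Fin (Y.n 2)) := by
        rw [Y.n_eq_zero 2 (by omega)]
        infer_instance
      have hex : Pool.Agent.TH38.ZT.ExAt Y (toRed (G ⧸ N)) 2 := by
        intro x _
        refine ⟨0, ?_⟩
        funext j
        exact (h0.false j).elim
      exact not_nontrivial_iff_subsingleton.2
        ((Pool.Agent.TH38.ZT.exAt_iff Y _ 2).1 hex) hi'
    obtain ⟨j, hj, hj'⟩ := h2 Y i hi' (Or.inr fun q h1 h3 => absurd h3 (by omega))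
    exact ⟨j, hj.trans hi1, hj'⟩

end Pool.Agent.Results.MP_9f173d_gt.AmenableKernels
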