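import Pool.Agent.R632.BC.Cm

/-!
# Zero in the spectrum and extensions by groups of `2 × 2` matrices over filtered rings

If the assembly map in the Baum–Connes conjecture is (rationally) injective for `Γ` then the
zero-in-the-spectrum conjecture, the form of the question for closed aspherical manifolds, holds for all
closed aspherical manifolds with fundamental group `Γ` (Gromov, Lott).
`B` is a class of groups with the inheritance properties of the Baum–Connes conjecture with
coefficients, and `S` satisfies the extension criterion for injectivity of the assembly maps with
coefficients (`Inherit B S`); `W B` contains the free groups.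

`W B` is the class of the groups `G` such that every countable group with a subgroup of finite index
which embeds in a finite power of `G` is in `B` (equivalently: finite wreath products over `G`). It is
closed under subgroups, overgroups of finite index, directed unions and arbitrary extensions
(`MP_ba76ae_gt.ElementaryExtensions`).

Let `R` be a ring, in general not commutative, with a degree function in the sense of P. M. Cohn: the
degree of a product is the sum of the degrees, the degree of a sum is at most the maximum of the
degrees, and the elements of degree `0` are invertible. Let `R → T` be a homomorphism of rings with
`T ≠ 0` such that `GL₂(T)` is in `W B`. Then the group `GE₂(R)`, generated by the elementary and the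
invertible diagonal matrices of size `2` over `R`, is in `W B`; so, if a subgroup `N` of `GE₂(R)` is
embedded as a normal subgroup in the countable group `G` and the quotient is in `B` (in `S`), then `G` is
in `B` (in `S`).

By the theorem of Guentner, Higson and Weinberger the countable subgroups of `GL₂(k)` are a-T-menable
for every field `k`, so `GL₂(k)` is in `W B` for `B` = Baum–Connes with coefficients. So the theorem
applies to free associative algebras and universal enveloping algebras of all Lie algebras over any
field `k`, and to the skew polynomial rings `k[x;σ]` (`T = k`).

Outline of the proof. Let `k` be the division ring of the elements of degree at most `0`. By an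
induction on the degrees, `GE₂(R)` is in the amalgamated product of `GL₂(k)` and of the group of upper
triangular matrices with diagonal entries in `k`. The homomorphism `R → T` is injective on `k`, so
the map to `GL₂(T)` is injective on the factor `GL₂(k)`, hence on the amalgamated subgroup, and its
kernel on the triangular matrices is abelian; so its kernel is in `W B`
(`MP_ba76ae_gt.KernelsOfSplittings`).
-/

set_option autoImplicit false

namespace Pool.Agent.Results.MP_9f173d_gt.FilteredRings

open Pool.Agent.R632.GE (GE2 IsDegree)
open Pool.Agent.R941.BC (Inherit W)

theorem result {B S : ∀ (G : Type) [Group G], Prop} (h : Inherit B S) (hF : W B (FreeGroup ℕ))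
    (R T : Type) [Ring R] [Nontrivial R] [Ring T] [Nontrivial T] (D : R → WithBot ℕ)
    (hD : IsDegree R D) (ψ : R →+* T) (hT : W B (Matrix (Fin 2) (Fin 2) T)ˣ) :
    W B (GE2 R) ∧
      ∀ (N : Type) [Group N] (e : N →* GE2 R), Function.Injective e →
        ∀ (G : Type) [Group G] (f : N →* G), Function.Injective f → ∀ [f.range.Normal],
          Countable G → (B (G ⧸ f.range) → B G) ∧ (S (G ⧸ f.range) → S G) := by
  have h1 : W B (GE2 R) := Pool.Agent.R632.BC.ge2_ext (Pool.Agent.R779.BC.W_extCl h hF)
    Pool.Agent.R632.BC.W_finCl hD ψ hT
  exact ⟨h1, fun N _ e he G _ f hf _ _ =>
    Pool.Agent.R632.BC.W_norm h (Pool.Agent.R941.BC.W_sub N _ e he h1) G f hf⟩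

end Pool.Agent.Results.MP_9f173d_gt.FilteredRings
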