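import Pool.Agent.R778.ZSFinal

/-!
Zero in the spectrum for finite aspherical complexes `M` whose universal cover has a symmetry of
finite order which moves the cells to infinity, as seen through a Lipschitz map to a Hilbert space.

`X : FinRes G` is the cellular chain complex of the universal cover of a finite aspherical complex
`M` with fundamental group `G` (`Pool.Agent.H919R4.ZS.Defs`), `X.len` is the dimension of `M` and
`X.homology (toRed G) i` is `H_i(M; C*_r(G))`. The cells of the universal cover, incidence
numbers, cellular automorphisms and their Lefschetz numbers are defined in
`Pool.Agent.R778.ZSDefs`. The automorphism `φ` need not commute with or normalise the group of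
deck transformations.

Examples (not formalised here). If `G` embeds coarsely in a Hilbert space and if `φ` moves cells
to infinity (for every `R` only finitely many cells `σ` are within distance `R` of `φ(σ)`), then
the coarse embedding is a map `f` as in the theorem. If `φ` is the product of commuting
reflections, which lie in a discrete group acting properly and cocompactly on the universal cover
and whose walls meet in a single point, as in Davis' reflection group trick, then the signed
distances to the walls give a map `f` as in the theorem, without any condition on `G`.
-/

set_option autoImplicit false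

namespace Pool.Agent.Results.MP_9f173d_gt.FiniteOrderSymmetry

open Pool.Agent.H919R4.ZS (FinRes toRed)
open Pool.Agent.R778.ZS (Cell CellAut inc)

/-- Let `φ` be a cellular automorphism of finite order of the universal cover of `M`, and let `f`
be a Lipschitz map from the set of its cells to a Hilbert space `H` (the values at incident cells
have distance at most `C`), such that for every `R` there are only finitely many cells `σ` with
`‖f(σ) - f(φ(σ))‖ ≤ R`. If the Lefschetz number of `φ` (a finite sum over the cells with
`φ(σ) = σ`) is not zero, then `H_i(M; C*_r(G)) ≠ 0` for some `i ≤ dim M`. -/
theorem result (G : Type) [Group G] (X : FinRes G) (φ : CellAut X)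
    (n : ℕ) (hn : 0 < n) (hφ : φ.perm ^ n = 1)
    (H : Type) [NormedAddCommGroup H] [InnerProductSpace ℂ H] (f : Cell X → H) (C : ℝ)
    (hf : ∀ σ ρ, inc X σ ρ ≠ 0 → ‖f σ - f ρ‖ ≤ C)
    (hp : ∀ R : ℝ, {σ | ‖f σ - f (φ.perm σ)‖ ≤ R}.Finite)
    (hL : φ.lefschetz ≠ 0) :
    ∃ i ≤ X.len, Nontrivial (X.homology (toRed G) i) :=
  Pool.Agent.R778.ZS.main φ n hn hφ f C hf hp hL

end Pool.Agent.Results.MP_9f173d_gt.FiniteOrderSymmetry
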