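import Pool.Agent.R630.ZP.Coh

/-!
# Zero in the spectrum from intersections in a covering

`X : FinRes G` is the cellular chain complex of the universal cover of a finite aspherical complex
`M` with fundamental group `G` (`Pool.Agent.H919R4.ZS.Defs`), and `X.homology (toRed G) i` is
`H_i(M; C*_r(G))`. For a subgroup `C` of `G` let `M_C` be the covering of `M` with fundamental group
`C`. A unitary representation `π` of `C` on `V` (`URep`) gives a flat bundle over `M_C`; its chains
and its cochains with compact support are tuples of functions `f j : G → V`, one for each cell `j`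
of `M` of the given dimension, with `f j (c x) = π(c) (f j x)`, `c ∈ C`, which vanish outside
finitely many cosets `C t` (`chains π m`, `IsChn`). The boundary is `bd`, `cyc X π k` is the group of
the `k`-cycles (`Pool.Agent.TH98.ZT.Defs`); the coboundary is `cb (X.d k)`, and `pair C z c` is the
pairing of a chain and a cochain, the sum of `⟪z, c⟫` over all cells of `M_C`
(`Pool.Agent.R630.ZP.Defs`).

Proof. If `H_i(M; C*_r(G)) = 0` for all `i ≤ k` there is a contraction with entries in `C*_r(G)` of
the complex in degree `k`, and so for square summable functions on `G` the inequality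
`|⟪z, c⟫| ≤ K (‖∂ z‖ ‖c‖ + ‖z‖ ‖δ c‖)`. Both sides are continuous functions of the matrix
coefficients, so the inequality passes from the regular representation of `C` to all
representations which are weakly contained in it, and a cycle pairs trivially with a cocycle.
-/

set_option autoImplicit false

namespace Pool.Agent.Results.MP_9f173d_gt.IntersectionsInCovers

open Pool.Agent.H919R4.ZS (FinRes toRed)
open Pool.Agent.H496R3.ZS (IsAmenable)
open Pool.Agent.TH98.ZT (URep Tempered chains cyc)
open Pool.Agent.R630.ZP (cb pair)

/-- Let `C` be a subgroup of `G`.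

(1) Let `π` be a unitary representation of `C` on `V`; suppose that `C` is amenable or that `π` is
weakly contained in the regular representation of `C`. If a `k`-cycle `z` of `M_C` and a `k`-cocycle
`c` of `M_C` with compact support, both with coefficients in `V`, have a pairing different from
zero, then `H_i(M; C*_r(G)) ≠ 0` for some `i ≤ k`.

(2) Let `C` be amenable. If a complex `(k + 1)`-cocycle `c` of `M_C` with compact support is not the
coboundary of any complex cochain (with arbitrary support) of `M_C`, that is, if the natural map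
from the cohomology with compact support `H^(k+1)_c(M_C; ℂ) = H^(k+1)(G; ℂ[G/C])` to
`H^(k+1)(M_C; ℂ) = H^(k+1)(C; ℂ)` is not zero, then `H_i(M; C*_r(G)) ≠ 0` for some `i ≤ k + 1`. -/
theorem result (G : Type) [Group G] (X : FinRes G) (C : Subgroup G) :
    (∀ (V : Type) [NormedAddCommGroup V] [InnerProductSpace ℂ V] (π : URep C V),
      (IsAmenable C ∨ Tempered π) → ∀ (k : ℕ), ∀ z ∈ cyc X π k, ∀ c ∈ chains π (X.n k),
        cb (X.d k) c = 0 → pair C z c ≠ 0 → ∃ i ≤ k, Nontrivial (X.homology (toRed G) i)) ∧
    (IsAmenable C → ∀ (k : ℕ) (c : Fin (X.n (k + 1)) → G → ℂ),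
      (∀ (j : Fin (X.n (k + 1))) (d : C) (x : G), c j (d * x) = c j x) →
      (∃ T : Finset G, ∀ (j : Fin (X.n (k + 1))) (x : G), c j x ≠ 0 → ∃ t ∈ T, x * t⁻¹ ∈ C) →
      cb (X.d (k + 1)) c = 0 →
      (¬ ∃ b : Fin (X.n k) → G → ℂ,
        (∀ (j : Fin (X.n k)) (d : C) (x : G), b j (d * x) = b j x) ∧ cb (X.d k) b = c) →
      ∃ i ≤ k + 1, Nontrivial (X.homology (toRed G) i)) :=
  ⟨fun _ _ _ π hπ k z hz c hc hcb hne => Pool.Agent.R630.ZP.final X π hπ k z c hz hc hcb hne,
    fun hC k c h1 h2 h3 h4 => Pool.Agent.R630.ZP.coh X hC k c h1 h2 h3 h4⟩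

end Pool.Agent.Results.MP_9f173d_gt.IntersectionsInCovers
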